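import Pool.Agent.Helper26_BS.HOld

/-! # BS squad, module HCROSS -/

set_option autoImplicit false

namespace Pool.Agent.BS.H26

open Function Filter MeasureTheory Topology

theorem lf_lam_pow {D V : Type} (T : TMap D V) (n : ℕ) (d : D) : T.lf ((T.lam ^ n) d) = T.lf d := by
  induction n with
  | zero => rfl
  | succ n ih => rw [pow_succ', Equiv.Perm.mul_apply, T.lf_lam, ih]

/-- darts with the same left vertex are related by a small power of `lam` -/
theorem cyc_le {D V : Type} (T : TMap D V) {Δ : ℕ} (hD : T.Deg Δ) (d d' : D)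
    (h : T.lf d = T.lf d') : ∃ n ≤ Δ, (T.lam ^ n) d = d' := by
  classical
  have hex := T.cyc d d' h
  refine ⟨Nat.find hex, ?_, Nat.find_spec hex⟩
  by_contra hc
  push Not at hc
  have hcard : (T.star (T.lf d)).card < (Finset.range (Δ + 1)).card := by
    rw [Finset.card_range]
    have := hD (T.lf d)
    omega
  obtain ⟨a, ha, b, hb, hab, heq⟩ := Finset.exists_ne_map_eq_of_card_lt_of_maps_to hcard
    (f := fun k => (T.lam ^ k) d) (fun k _ => (T.mem_star _ _).2 (lf_lam_pow T k d))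
  have key : ∀ a b : ℕ, a < b → b ≤ Δ → (T.lam ^ a) d = (T.lam ^ b) d → False := by
    intro a b hlt hbΔ he
    have h1 : Nat.find hex - b + a < Nat.find hex := by omega
    apply Nat.find_min hex h1
    have h2 : (T.lam ^ (Nat.find hex - b + a)) d = (T.lam ^ (Nat.find hex - b)) ((T.lam ^ a) d) := by
      rw [pow_add, Equiv.Perm.mul_apply]
    rw [h2, he, ← Equiv.Perm.mul_apply, ← pow_add]
    have h3 : Nat.find hex - b + b = Nat.find hex := by omega
    rw [h3]
    exact Nat.find_spec hex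
  rw [Finset.mem_range] at ha hb
  rcases Nat.lt_or_gt_of_ne hab with h1 | h1
  · exact key a b h1 (by omega) heq
  · exact key b a h1 (by omega) heq.symm

theorem hcross (hFC : FinCrossStmt) (hTR : TypRepStmt) : HCrossStmt := by
  intro D V T Δ K θ s ℓ Λ A' H 𝒰 μ hP hD hF hS hU hUt hμ hL
  have hg := hgood hTR D V T Δ K θ s ℓ Λ A' H 𝒰 μ hP hD hF hS hU hUt hμ hL
  have e1 : ∀ᵐ X ∂μ, ∀ (i i' : ℤ) (g g' : Gam) (n1 n2 : ℕ), ¬ ((i < i') ∧ X .fut g = true ∧
      X .past g' = true ∧
      (∀ j ≤ i.natAbs + i'.natAbs, X .eq (g⁻¹ * wz X (j : ℤ)) = false ∧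
        X .eq (g'⁻¹ * wz X (-(j : ℤ))) = false) ∧
      X .eq (g⁻¹ * (L ^ n1 * wz X i)) = true ∧
      X .eq (g'⁻¹ * (L ^ n2 * wz X i')) = true ∧
      (∀ n ≤ Δ, X .eq ((wz X i')⁻¹ * (L ^ n * wz X i)) = false)) := by
    rw [ae_all_iff]
    intro i
    rw [ae_all_iff]
    intro i'
    rw [ae_all_iff]
    intro g
    rw [ae_all_iff]
    intro g'
    rw [ae_all_iff]
    intro n1
    rw [ae_all_iff]
    intro n2
    refine null_window hS.ne hS.lim hU hUt hμ hL _
      ((LC.const (i < i')).and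
      (((LC.bit .fut g).map (fun x => x = true)).and
      (((LC.bit .past g').map (fun x => x = true)).and
      ((LC.all_le (fun j => (((lc_wz (j : ℤ)).map (fun h => g⁻¹ * h)).bitw_eq .eq false).and
        (((lc_wz (-(j : ℤ))).map (fun h => g'⁻¹ * h)).bitw_eq .eq false))
        (i.natAbs + i'.natAbs)).and
      ((((lc_wz i).map (fun h => g⁻¹ * (L ^ n1 * h))).bitw_eq .eq true).and
      ((((lc_wz i').map (fun h => g'⁻¹ * (L ^ n2 * h))).bitw_eq .eq true).and
      (LC.all_le (fun n => ((lc_wz i').map2 (lc_wz i)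
        (fun h h' => h⁻¹ * (L ^ n * h'))).bitw_eq .eq false) Δ)))))))
      (i.natAbs + i'.natAbs) (i.natAbs + i'.natAbs) ?_
    rintro n ω hω k hk1 hk2 ⟨hii, h1, h2, h3, h4, h5, h6⟩
    have hloop := hS.loop n ω hω
    obtain ⟨x, hx1, hx2, hx3⟩ := (enc_fut T θ
      (T.smp (colF ω) (fun m => T.hull (H n ω : Set V) m) (s n) (ℓ n) k) g).1 h1
    obtain ⟨y, hy1, hy2⟩ := (enc_past T θ
      (T.smp (colF ω) (fun m => T.hull (H n ω : Set V) m) (s n) (ℓ n) k) g').1 h2
    have hx3' : T.act g ((T.nx (colF ω))^[k] (s n)) = (T.nx (colF ω))^[x] (s n) := hx3.symm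
    have hy2' : T.act g' ((T.nx (colF ω))^[k] (s n)) = (T.nx (colF ω))^[y] (s n) := hy2.symm
    obtain ⟨mi, hmi⟩ : ∃ mi : ℕ, (k : ℤ) + i = mi := ⟨((k : ℤ) + i).toNat, by omega⟩
    obtain ⟨mi', hmi'⟩ : ∃ mi' : ℕ, (k : ℤ) + i' = mi' := ⟨((k : ℤ) + i').toNat, by omega⟩
    have hwi := sam_word hTR hP hD hF hloop k mi i hmi
    have hwi' := sam_word hTR hP hD hF hloop k mi' i' hmi'
    have hxk : k + (i.natAbs + i'.natAbs) < x := by
      by_contra hc
      push Not at hc
      have h7 := (h3 (x - k) (by omega)).1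
      have h8 := (enc_eq_f' T θ
        (T.smp (colF ω) (fun m => T.hull (H n ω : Set V) m) (s n) (ℓ n) k) _ _).1 h7
      apply h8
      have h9 := sam_word hTR hP hD hF hloop k x ((x - k : ℕ) : ℤ) (by omega)
      exact hx3'.trans h9.symm
    have hyk : y + (i.natAbs + i'.natAbs) < k := by
      by_contra hc
      push Not at hc
      have h7 := (h3 (k - y) (by omega)).2
      have h8 := (enc_eq_f' T θ
        (T.smp (colF ω) (fun m => T.hull (H n ω : Set V) m) (s n) (ℓ n) k) _ _).1 h7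
      apply h8
      have h9 := sam_word hTR hP hD hF hloop k y (-((k - y : ℕ) : ℤ)) (by omega)
      exact hy2'.trans h9.symm
    have q4 : T.lf ((T.nx (colF ω))^[mi] (s n)) = T.lf ((T.nx (colF ω))^[x] (s n)) := by
      have h7 := (enc_eq' T θ
        (T.smp (colF ω) (fun m => T.hull (H n ω : Set V) m) (s n) (ℓ n) k) _ _).1 h4
      have h8 := congrArg T.lf h7
      rw [T.act_mul_apply, act_L_pow, lf_lam_pow] at h8
      have h9 : T.lf (T.act g ((T.nx (colF ω))^[k] (s n)))
          = T.lf (T.act (wz (sam T θ s ℓ H n ω k) i) ((T.nx (colF ω))^[k] (s n))) := h8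
      rw [hx3', hwi] at h9
      exact h9.symm
    have q5 : T.lf ((T.nx (colF ω))^[y] (s n)) = T.lf ((T.nx (colF ω))^[mi'] (s n)) := by
      have h7 := (enc_eq' T θ
        (T.smp (colF ω) (fun m => T.hull (H n ω : Set V) m) (s n) (ℓ n) k) _ _).1 h5
      have h8 := congrArg T.lf h7
      rw [T.act_mul_apply, act_L_pow, lf_lam_pow] at h8
      have h9 : T.lf (T.act g' ((T.nx (colF ω))^[k] (s n)))
          = T.lf (T.act (wz (sam T θ s ℓ H n ω k) i') ((T.nx (colF ω))^[k] (s n))) := h8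
      rw [hy2', hwi'] at h9
      exact h9
    have q6 : T.lf ((T.nx (colF ω))^[mi] (s n)) ≠ T.lf ((T.nx (colF ω))^[mi'] (s n)) := by
      intro hc
      obtain ⟨j, hj, hj2⟩ := cyc_le T hD _ _ hc
      have h7 := (enc_eq_f' T θ
        (T.smp (colF ω) (fun m => T.hull (H n ω : Set V) m) (s n) (ℓ n) k) _ _).1 (h6 j hj)
      apply h7
      rw [T.act_mul_apply, act_L_pow]
      have h8 : T.act (wz (sam T θ s ℓ H n ω k) i') ((T.nx (colF ω))^[k] (s n))
        = (T.lam ^ j) (T.act (wz (sam T θ s ℓ H n ω k) i) ((T.nx (colF ω))^[k] (s n))) := by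
        rw [hwi, hwi', hj2]
      exact h8
    rcases Nat.lt_or_ge x (y + ℓ n) with hxy | hxy
    · exact q6 (hFC D V T Δ K θ (colF ω) (s n) (ℓ n) (H n ω) y mi mi' x hP hD hF hloop
        (by omega) (by omega) (by omega) hxy q5 q4)
    · have hxl : x = ℓ n := by
        have : x ≤ ℓ n := hx2
        omega
      have hy0 : y = 0 := by
        have : x ≤ ℓ n := hx2
        omega
      rw [hxl, hloop.2.2.1] at q4
      rw [hy0] at q5
      exact q6 (q4.trans q5)
  filter_upwards [hg, e1] with X f0 f1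
  intro D' V' T' θ' E hR i i' hii e he e' he' hj hj' hlf hlf'
  have hG := f0 D' V' T' θ' E hR
  have hX := hR.eq
  have hw := (hTR Δ K D' V' T' θ' E X hR hG.state).1
  obtain ⟨g, rfl⟩ := T'.act_conn E.r e
  obtain ⟨g', rfl⟩ := T'.act_conn E.r e'
  obtain ⟨n1, hn1⟩ := T'.cyc (T'.st E.c E.r i) (T'.act g E.r) hlf.symm
  obtain ⟨n2, hn2⟩ := T'.cyc (T'.st E.c E.r i') (T'.act g' E.r) hlf'.symm
  by_contra hc
  apply f1 i i' g g' n1 n2
  refine ⟨hii, ?_, ?_, ?_, ?_, ?_, ?_⟩
  · have h := (enc_fut T' θ' E g).2 he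
    rw [← hX] at h
    exact h
  · have h := (enc_past T' θ' E g').2 he'
    rw [← hX] at h
    exact h
  · intro j _
    constructor
    · have h := (enc_eq_f' T' θ' E g (wz X (j : ℤ))).2 (by
        rw [hw]
        exact (hj j).symm)
      rw [← hX] at h
      exact h
    · have h := (enc_eq_f' T' θ' E g' (wz X (-(j : ℤ)))).2 (by
        rw [hw]
        exact (hj' _).symm)
      rw [← hX] at h
      exact h
  · have h := (enc_eq' T' θ' E g (L ^ n1 * wz X i)).2 (by
      rw [T'.act_mul_apply, act_L_pow, hw, hn1])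
    rw [← hX] at h
    exact h
  · have h := (enc_eq' T' θ' E g' (L ^ n2 * wz X i')).2 (by
      rw [T'.act_mul_apply, act_L_pow, hw, hn2])
    rw [← hX] at h
    exact h
  · intro n _
    have h := (enc_eq_f' T' θ' E (wz X i') (L ^ n * wz X i)).2 (by
      rw [T'.act_mul_apply, act_L_pow, hw, hw]
      intro h'
      apply hc
      have h2 := congrArg T'.lf h'
      rw [lf_lam_pow] at h2
      exact h2.symm)
    rw [← hX] at h
    exact h

end Pool.Agent.BS.H26
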