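import Pool.Agent.Helper47_BS.Stmts

/-! # BS squad, module HVALID -/

set_option autoImplicit false

namespace Pool.Agent.BS.H26

open Function Filter MeasureTheory Topology

theorem isClopen_bit (k : Kd) (g : Gam) (b : Bool) : IsClopen {X : Cod | X k g = b} := by
  have h : {X : Cod | X k g = b} = (fun X : Cod => X k g) ⁻¹' {b} := rfl
  rw [h]
  exact (isClopen_discrete {b}).preimage (continuous_bit k g)

theorem null_clopen (hT : HToolStmt) {D V : Type} {T : TMap D V} {θ : D → ℤ} {s : ℕ → D} {ℓ : ℕ → ℕ}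
    {A : ℕ → Finset (Finset V)} {H : ℕ → Finset V → Finset V} {𝒰 : Filter ℕ} {μ : Measure Cod}
    (h1 : ∀ n, (A n).Nonempty) (h2 : Tendsto ℓ atTop atTop) (h3 : 𝒰.NeBot) (h4 : 𝒰 ≤ atTop)
    (h5 : IsProbabilityMeasure μ) (h6 : IsLim T θ s ℓ A H 𝒰 μ) (U : Set Cod) (hU : IsClopen U)
    (h : ∀ n, ∀ ω ∈ A n, ∀ k ≤ ℓ n, sam T θ s ℓ H n ω k ∉ U) : μ U = 0 := by
  refine (hT D V T θ s ℓ A H 𝒰 μ h1 h2 h3 h4 h5 h6).2 U 0 hU ?_
  refine Eventually.of_forall fun n ω hω F hF hFU => ?_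
  rw [Nat.le_zero, Finset.card_eq_zero, Finset.eq_empty_iff_forall_notMem]
  intro k hk
  have h7 := hF hk
  rw [Finset.mem_range, Nat.lt_succ_iff] at h7
  exact h n ω hω k h7 (hFU k hk)

theorem hvalid (hC : ClosedStmt) (hT : HToolStmt) : HValidStmt := by
  intro D V T Δ K θ s ℓ Λ A H 𝒰 μ hP hD hF hS hU hUt hμ hL
  have hcl := hC Δ K
  change μ {X | ¬ Valid Δ K X} = 0
  refine measure_null_of_locally_null _ ?_
  intro X hX
  have ho : IsOpen {X : Cod | ¬ Valid Δ K X} := hcl.isOpen_compl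
  obtain ⟨U, hU1, hXU, hU2⟩ := compact_exists_isClopen_in_isOpen ho hX
  refine ⟨U, mem_nhdsWithin_of_mem_nhds (hU1.isOpen.mem_nhds hXU), ?_⟩
  refine null_clopen hT hS.ne hS.lim hU hUt hμ hL U hU1 ?_
  intro n ω hω k hk hmem
  exact hU2 hmem ⟨D, V, T, θ, _, ⟨hP, hD, hF, rfl⟩⟩

theorem hull_anti {D V : Type} (T : TMap D V) (H : Set V) (m : ℕ) :
    T.hull H (m + 1) ⊆ T.hull H m := by
  rintro x (hx | ⟨y, hy, hm, hxy⟩)
  · exact Or.inl hx
  · exact Or.inr ⟨y, hy, by omega, hxy⟩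

theorem hmono (hT : HToolStmt) : HMonoStmt := by
  intro D V T Δ K θ s ℓ Λ A H 𝒰 μ hP hD hF hS hU hUt hμ hL
  rw [ae_all_iff]
  intro m
  rw [ae_all_iff]
  intro g
  have h := null_clopen hT hS.ne hS.lim hU hUt hμ hL
    ({X : Cod | X (.beta (m + 1)) g = true} ∩ {X : Cod | X (.beta m) g = false})
    ((isClopen_bit _ _ _).inter (isClopen_bit _ _ _)) (by
      intro n ω hω k hk hmem
      obtain ⟨h1, h2⟩ := hmem
      simp only [Set.mem_ofPred_eq, sam, TMap.enc, TMap.smp, decide_eq_true_eq,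
        decide_eq_false_iff_not] at h1 h2
      exact h2 (hull_anti T _ m h1))
  rw [ae_iff]
  refine measure_mono_null ?_ h
  intro X hX
  simp only [Set.mem_ofPred_eq, Classical.not_imp, Bool.not_eq_true] at hX
  exact hX

end Pool.Agent.BS.H26
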