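import Pool.Agent.Helper26_BS.HShift
import Pool.Agent.Helper26_BS.HValid

/-! # BS squad, module HDRIFT -/

set_option autoImplicit false

namespace Pool.Agent.BS.H26

open Function Filter MeasureTheory Topology

theorem beta_A {D V : Type} (T : TMap D V) (θ : D → ℤ) (E : Env D V) (m : ℕ) :
    T.enc θ E (.beta m) A = true ↔ T.rt E.r ∈ E.B m := by
  simp only [TMap.enc, TMap.act_A, TMap.lf_al, decide_eq_true_eq]

open Classical in
theorem integral_neg_ind {μ : Measure Cod} (U : Set Cod) (hU : IsClopen U) :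
    ∫ X, (if X ∈ U then (-1 : ℝ) else 0) ∂μ = - μ.real U := by
  have e : (fun X : Cod => if X ∈ U then (-1 : ℝ) else 0) = U.indicator (fun _ => (-1 : ℝ)) := by
    funext X
    simp [Set.indicator]
  rw [e, integral_indicator hU.isOpen.measurableSet]
  simp

theorem hdrift (hFD : FinDriftStmt) (hCt : ContStmt) (hC : CodeStmt) : HDriftStmt := by
  intro D V T Δ K θ s ℓ Λ A' H 𝒰 μ hP hD hF hS hU hUt hμ hL m hm
  classical
  obtain ⟨-, -, -, -, -, -, hc⟩ := hCt
  have hΔ : 0 < Δ := by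
    have h1 := hD (T.lf (s 0))
    have h2 := (T.star_ne (T.lf (s 0))).card_pos
    omega
  have hΔ' : (0 : ℝ) < Δ := by exact_mod_cast hΔ
  have hcl : IsClopen {X : Cod | X (.beta m) A = true} := isClopen_bit _ _ _
  have hfc : Continuous (fun X : Cod => if X (.beta m) A = true then (0 : ℝ) else th0 K X) := by
    refine Continuous.if ?_ continuous_const (hc K)
    intro X hX
    have : frontier {X : Cod | X (.beta m) A = true} = ∅ := hcl.frontier_eq
    rw [this] at hX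
    exact absurd hX (Set.notMem_empty _)
  refine (htool D V T θ s ℓ A' H 𝒰 μ hS.ne hS.lim hU hUt hμ hL).1 _ (1 / Δ) (1 / Δ + K) hfc ?_
  refine Eventually.of_forall fun n ω hω => ?_
  have hloop := hS.loop n ω hω
  have h1 := hFD D V T Δ K θ (colF ω) (s n) (ℓ n) (H n ω) m hP hD hF hloop hm
  have e1 : ∀ k, (if (sam T θ s ℓ H n ω k) (.beta m) A = true then (0 : ℝ)
      else th0 K (sam T θ s ℓ H n ω k))
      = ((if T.rt ((T.nx (colF ω))^[k] (s n)) ∈ T.hull (H n ω : Set V) m then 0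
          else θ ((T.nx (colF ω))^[k] (s n)) : ℤ) : ℝ) := by
    intro k
    have e2 : (sam T θ s ℓ H n ω k) (.beta m) A = true ↔
        T.rt ((T.nx (colF ω))^[k] (s n)) ∈ T.hull (H n ω : Set V) m := beta_A T θ _ m
    have e3 : th0 K (sam T θ s ℓ H n ω k) = θ ((T.nx (colF ω))^[k] (s n)) :=
      (hC D V T θ _).2.2.2.2.2 K hF.bdd
    by_cases h : T.rt ((T.nx (colF ω))^[k] (s n)) ∈ T.hull (H n ω : Set V) m
    · rw [if_pos (e2.2 h), if_pos h]
      simp
    · rw [if_neg (fun h' => h (e2.1 h')), if_neg h, e3]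
  rw [Finset.sum_congr rfl fun k _ => e1 k, Finset.sum_range_succ, ← Int.cast_sum]
  have h2 : ((ℓ n : ℤ) : ℝ) ≤ ((Δ * ∑ k ∈ Finset.range (ℓ n),
      (if T.rt ((T.nx (colF ω))^[k] (s n)) ∈ T.hull (H n ω : Set V) m then 0
        else θ ((T.nx (colF ω))^[k] (s n))) : ℤ) : ℝ) := by exact_mod_cast h1
  have h3 : (-(K : ℝ)) ≤ ((if T.rt ((T.nx (colF ω))^[ℓ n] (s n)) ∈ T.hull (H n ω : Set V) m then 0
        else θ ((T.nx (colF ω))^[ℓ n] (s n)) : ℤ) : ℝ) := by
    have h4 := (abs_le.1 (hF.bdd ((T.nx (colF ω))^[ℓ n] (s n)))).1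
    split_ifs
    · simp
    · exact_mod_cast h4
  push_cast at h2 h3 ⊢
  have h5 : (ℓ n : ℝ) / Δ ≤ ∑ k ∈ Finset.range (ℓ n),
      (if T.rt ((T.nx (colF ω))^[k] (s n)) ∈ T.hull (H n ω : Set V) m then (0 : ℝ)
        else (θ ((T.nx (colF ω))^[k] (s n)) : ℝ)) := by
    rw [div_le_iff₀ hΔ']
    linarith
  have h6 : 1 / (Δ : ℝ) * ((ℓ n : ℝ) + 1) - (1 / Δ + K) = (ℓ n : ℝ) / Δ - K := by
    field_simp
    ring
  rw [h6]
  linarith

theorem hchange (hFC : FinChangeStmt) (hCt : ContStmt) (hC : CodeStmt) : HChangeStmt := by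
  intro D V T Δ K θ s ℓ Λ A' H 𝒰 μ hP hD hF hS hU hUt hμ hL
  classical
  obtain ⟨-, hSh, -, -, -, -, hc⟩ := hCt
  refine ⟨4 * Δ * K, fun m hm => ?_⟩
  have hm' : (0 : ℝ) < m := by exact_mod_cast hm
  obtain ⟨W, hW⟩ : ∃ W : Set Cod, W = {X : Cod | X (.beta m) A ≠ (Sh X) (.beta m) A} := ⟨_, rfl⟩
  have hcl : IsClopen W := by
    have h : W
        = (fun X : Cod => (X (.beta m) A, (Sh X) (.beta m) A)) ⁻¹' {p | p.1 ≠ p.2} := hW
    rw [h]
    refine (isClopen_discrete _).preimage ?_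
    exact (continuous_bit (.beta m) A).prodMk ((continuous_bit (.beta m) A).comp hSh)
  have hWm : ∀ X, X ∈ W ↔ X (.beta m) A ≠ (Sh X) (.beta m) A := by
    intro X
    rw [hW]
    rfl
  rw [← hW]
  have h1 := (htool D V T θ s ℓ A' H 𝒰 μ hS.ne hS.lim hU hUt hμ hL).1
    (fun X => if X ∈ W then (-1 : ℝ) else 0)
    (-(4 * Δ * K / m)) 1 (continuous_indicator_clopen _ hcl (-1)) ?_
  · rw [integral_neg_ind _ hcl] at h1
    linarith
  · refine Eventually.of_forall fun n ω hω => ?_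
    have hloop := hS.loop n ω hω
    obtain ⟨hl0, hst, hper, hinj, -⟩ := hloop
    have h2 := hFC D V T Δ K θ (colF ω) (s n) (ℓ n) (H n ω) m hP hD hF (hS.loop n ω hω) hm
    have e1 : ∀ k, sam T θ s ℓ H n ω k ∈ W ↔
        ¬ (T.rt ((T.nx (colF ω))^[k] (s n)) ∈ T.hull (H n ω : Set V) m ↔
         T.rt ((T.nx (colF ω))^[k + 1] (s n)) ∈ T.hull (H n ω : Set V) m) := by
      intro k
      have e2 : (sam T θ s ℓ H n ω k) (.beta m) A = true ↔
        T.rt ((T.nx (colF ω))^[k] (s n)) ∈ T.hull (H n ω : Set V) m := beta_A T θ _ m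
      have e3 : (Sh (sam T θ s ℓ H n ω k)) (.beta m) A = true ↔
        T.rt ((T.nx (colF ω))^[k + 1] (s n)) ∈ T.hull (H n ω : Set V) m := by
        unfold sam
        rw [(hC D V T θ _).2.1 (hst.iterate_nx k), beta_A, Function.iterate_succ_apply']
        rfl
      rw [← e2, ← e3, hWm, Ne, Bool.eq_iff_iff]
    rw [← Finset.sum_filter]
    simp only [Finset.sum_const, nsmul_eq_mul]
    rw [Finset.filter_congr fun k _ => e1 k]
    have h3 : ((Finset.range (ℓ n + 1)).filter (fun k =>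
        ¬ (T.rt ((T.nx (colF ω))^[k] (s n)) ∈ T.hull (H n ω : Set V) m ↔
         T.rt ((T.nx (colF ω))^[k + 1] (s n)) ∈ T.hull (H n ω : Set V) m))).card
        ≤ ((Finset.range (ℓ n)).filter (fun k =>
        ¬ (T.rt ((T.nx (colF ω))^[k] (s n)) ∈ T.hull (H n ω : Set V) m ↔
         T.rt ((T.nx (colF ω))^[k + 1] (s n)) ∈ T.hull (H n ω : Set V) m))).card + 1 := by
      rw [Finset.range_add_one, Finset.filter_insert]
      split_ifs
      · omega
      · exact Finset.card_insert_le _ _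
    set N := ((Finset.range (ℓ n)).filter (fun k =>
        ¬ (T.rt ((T.nx (colF ω))^[k] (s n)) ∈ T.hull (H n ω : Set V) m ↔
         T.rt ((T.nx (colF ω))^[k + 1] (s n)) ∈ T.hull (H n ω : Set V) m))).card with hN
    have h4 : (m : ℝ) * N ≤ 4 * Δ * K * ℓ n := by exact_mod_cast h2
    have h5 : (N : ℝ) ≤ 4 * Δ * K / m * ℓ n := by
      rw [div_mul_eq_mul_div, le_div_iff₀ hm']
      linarith
    have h6 : (0 : ℝ) ≤ 4 * Δ * K / m := by positivity
    have h7 : ((((Finset.range (ℓ n + 1)).filter (fun k =>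
        ¬ (T.rt ((T.nx (colF ω))^[k] (s n)) ∈ T.hull (H n ω : Set V) m ↔
         T.rt ((T.nx (colF ω))^[k + 1] (s n)) ∈ T.hull (H n ω : Set V) m))).card : ℕ) : ℝ)
        ≤ N + 1 := by exact_mod_cast h3
    linarith

end Pool.Agent.BS.H26
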