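import Pool.Agent.Helper26_BS.HShift
import Pool.Agent.Helper26_BS.HValid

/-! # BS squad, module HFLIP -/

set_option autoImplicit false

namespace Pool.Agent.BS.H26

open Function Filter MeasureTheory Topology

/-- cylinder sets of codes -/
def cyl (J : Finset (Kd × Gam)) (X0 : Cod) : Set Cod := {X | ∀ p ∈ J, X p.1 p.2 = X0 p.1 p.2}

theorem isClopen_cyl (J : Finset (Kd × Gam)) (X0 : Cod) : IsClopen (cyl J X0) := by
  have h : cyl J X0 = ⋂ p ∈ J, {X : Cod | X p.1 p.2 = X0 p.1 p.2} := by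
    ext X
    simp [cyl]
  rw [h]
  exact isClopen_biInter_finset fun p _ => isClopen_bit _ _ _

/-- the family of cylinder sets -/
def cyls : Set (Set Cod) := {U | ∃ J X0, U = cyl J X0}

theorem cyl_pi : IsPiSystem cyls := by
  rintro _ ⟨J, X0, rfl⟩ _ ⟨J', X0', rfl⟩ ⟨X1, h1, h2⟩
  classical
  refine ⟨J ∪ J', X1, ?_⟩
  ext X
  simp only [cyl, Set.mem_inter_iff, Set.mem_ofPred_eq, Finset.mem_union] at h1 h2 ⊢
  constructor
  · rintro ⟨k1, k2⟩ p (hp | hp)
    · rw [k1 p hp, h1 p hp]
    · rw [k2 p hp, h2 p hp]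
  · intro k
    exact ⟨fun p hp => by rw [k p (Or.inl hp), h1 p hp],
      fun p hp => by rw [k p (Or.inr hp), h2 p hp]⟩

theorem cyl_gen : (inferInstance : MeasurableSpace Cod) = MeasurableSpace.generateFrom cyls := by
  apply le_antisymm
  · have h : @Measurable Cod Cod (MeasurableSpace.generateFrom cyls) inferInstance id := by
      refine (@measurable_pi_iff Cod Kd _ (MeasurableSpace.generateFrom cyls) _ _).2 ?_
      intro k
      refine (@measurable_pi_iff Cod Gam _ (MeasurableSpace.generateFrom cyls) _ _).2 ?_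
      intro g
      refine @measurable_to_bool Cod (MeasurableSpace.generateFrom cyls) _ ?_
      apply MeasurableSpace.measurableSet_generateFrom
      refine ⟨{(k, g)}, fun _ _ => true, ?_⟩
      ext X
      simp [cyl]
    intro U hU
    have := h hU
    simpa using this
  · refine MeasurableSpace.generateFrom_le ?_
    rintro _ ⟨J, X0, rfl⟩
    exact (isClopen_cyl J X0).isOpen.measurableSet

theorem measure_ext_cyl {μ ν : Measure Cod} (hμ : IsProbabilityMeasure μ)
    (hν : IsProbabilityMeasure ν) (h : ∀ J X0, μ (cyl J X0) = ν (cyl J X0)) : μ = ν := by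
  refine ext_of_generate_finite cyls cyl_gen cyl_pi ?_ ?_
  · rintro _ ⟨J, X0, rfl⟩
    exact h J X0
  · simp

theorem hflip (hFF : FlipFinStmt) (hCt : ContStmt) : HFlipStmt := by
  intro D V T Δ K θ s ℓ Λ A H 𝒰 μ hP hD hF hS hU hUt hμ hL S
  obtain ⟨-, -, -, hcP, hcF, -, -⟩ := hCt
  have hcF' := hcF Δ S
  have hm1 : Measurable (fun X => PrP (FlP Δ S X)) := (hcP.comp hcF').measurable
  have i1 : IsProbabilityMeasure (Measure.map (fun X => PrP (FlP Δ S X)) μ) :=
    Measure.isProbabilityMeasure_map hm1.aemeasurable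
  have i2 : IsProbabilityMeasure (Measure.map PrP μ) :=
    Measure.isProbabilityMeasure_map hcP.measurable.aemeasurable
  refine measure_ext_cyl i1 i2 ?_
  intro J X0
  have hU0 : IsClopen (cyl J X0) := isClopen_cyl J X0
  rw [Measure.map_apply hm1 hU0.isOpen.measurableSet,
    Measure.map_apply hcP.measurable hU0.isOpen.measurableSet]
  classical
  set f : Cod → ℝ := fun X => if X ∈ PrP ⁻¹' (cyl J X0) then 1 else 0 with hf
  have hcl : IsClopen (PrP ⁻¹' (cyl J X0)) := hU0.preimage hcP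
  have hfc : Continuous f := continuous_indicator_clopen _ hcl 1
  have hf1 : ∀ X, |f X| ≤ 1 := by
    intro X
    simp only [hf]
    split_ifs <;> simp
  have hloc : LocalP (J.image Prod.snd) f := by
    intro X Y hXY
    have e : X ∈ PrP ⁻¹' (cyl J X0) ↔ Y ∈ PrP ⁻¹' (cyl J X0) := by
      simp only [Set.mem_preimage, cyl, Set.mem_ofPred_eq]
      refine forall₂_congr ?_
      rintro ⟨k, g⟩ hp
      have hg := hXY g (Finset.mem_image.2 ⟨(k, g), hp, rfl⟩)
      have e2 : PrP X k g = PrP Y k g := by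
        cases k with
        | col => exact hg.1
        | past => exact hg.2.1
        | fut => rfl
        | eq => exact hg.2.2.1
        | beta m => rfl
        | th z => exact hg.2.2.2 z
      simp only [e2]
    simp only [hf, e]
  obtain ⟨M, R, hMR⟩ := hFF Δ S (J.image Prod.snd)
  have l1 := hL (fun X => f (FlP Δ S X)) (hfc.comp hcF')
  have l2 := hL f hfc
  have l3 := l1.sub l2
  have key : ∀ δ : ℝ, 0 < δ → |(∫ X, f (FlP Δ S X) ∂μ) - ∫ X, f X ∂μ| ≤ M * δ := by
    intro δ hδ
    have t1 : Tendsto (fun n => (M : ℝ) * δ + 2 / ((ℓ n : ℝ) + 1)) 𝒰 (𝓝 (M * δ)) := by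
      have h3 : Tendsto (fun n => 2 / ((ℓ n : ℝ) + 1)) atTop (𝓝 0) := by
        refine Tendsto.const_div_atTop ?_ 2
        exact tendsto_atTop_add_const_right _ _ (tendsto_natCast_atTop_atTop.comp hS.lim)
      have := (tendsto_const_nhds (x := (M : ℝ) * δ)).add (h3.mono_left hUt)
      simpa using this
    refine le_of_tendsto_of_tendsto l3.abs t1 ?_
    filter_upwards [hUt (hS.big (δ ^ 2) (by positivity)), hUt (hS.lim.eventually_ge_atTop R)]
      with n hbig hR
    have h := hMR D V T θ hD (s n) (ℓ n) (Λ n) (A n)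
      (fun ω m => T.hull (H n ω : Set V) m) δ f hR (hS.reach n) (hS.sub n) (hS.ne n)
      (fun ω hω => ⟨H n ω, hS.loop n ω hω⟩) hδ hbig hloc hf1
    have hAc : 0 < ((A n).card : ℝ) := by exact_mod_cast (hS.ne n).card_pos
    have hlp : 0 < (ℓ n : ℝ) + 1 := by positivity
    rw [← sub_div, abs_div, abs_of_pos (mul_pos hAc hlp), div_le_iff₀ (mul_pos hAc hlp)]
    have e : ∑ ω ∈ A n, ∑ k ∈ Finset.range (ℓ n + 1), f (FlP Δ S (sam T θ s ℓ H n ω k))
        - ∑ ω ∈ A n, ∑ k ∈ Finset.range (ℓ n + 1), f (sam T θ s ℓ H n ω k)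
        = ∑ ω ∈ A n, ∑ k ∈ Finset.range (ℓ n + 1), (f (FlP Δ S (sam T θ s ℓ H n ω k))
          - f (sam T θ s ℓ H n ω k)) := by
      simp only [Finset.sum_sub_distrib]
    rw [e]
    refine le_trans h (le_of_eq ?_)
    field_simp
  have hzero : (∫ X, f (FlP Δ S X) ∂μ) - ∫ X, f X ∂μ = 0 := by
    rw [← abs_nonpos_iff]
    refine le_of_forall_pos_le_add ?_
    intro ε hε
    have hM : (0 : ℝ) < (M : ℝ) + 1 := by positivity
    have h := key (ε / (M + 1)) (by positivity)
    refine le_trans h ?_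
    rw [zero_add, mul_div_assoc', div_le_iff₀ hM]
    nlinarith
  have e1 : ∫ X, f X ∂μ = μ.real (PrP ⁻¹' (cyl J X0)) := by
    have e : f = (PrP ⁻¹' (cyl J X0)).indicator (fun _ => (1 : ℝ)) := by
      funext X
      simp [hf, Set.indicator]
    rw [e, integral_indicator hcl.isOpen.measurableSet]
    simp
  have e2 : ∫ X, f (FlP Δ S X) ∂μ = μ.real ((fun X => PrP (FlP Δ S X)) ⁻¹' (cyl J X0)) := by
    have e : (fun X => f (FlP Δ S X))
        = ((fun X => PrP (FlP Δ S X)) ⁻¹' (cyl J X0)).indicator (fun _ => (1 : ℝ)) := by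
      funext X
      simp [hf, Set.indicator]
    rw [e, integral_indicator (hm1 hU0.isOpen.measurableSet)]
    simp
  rw [e1, e2, sub_eq_zero] at hzero
  rw [measureReal_def, measureReal_def,
    ENNReal.toReal_eq_toReal_iff' (measure_ne_top _ _) (measure_ne_top _ _)] at hzero
  exact hzero

end Pool.Agent.BS.H26
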