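import Pool.Agent.Helper26_BS.Words

/-! # BS squad, module HGOOD -/

set_option autoImplicit false

namespace Pool.Agent.BS.H26

open Function Filter MeasureTheory Topology

/-- the words of a sampled code lead along the loop -/
theorem sam_word (hTR : TypRepStmt) {D V : Type} {T : TMap D V} {Δ K : ℕ} {θ : D → ℤ} {s : ℕ → D}
    {ℓ : ℕ → ℕ} {H : ℕ → Finset V → Finset V} {n : ℕ} {ω : Finset V}
    (hP : T.Planar) (hD : T.Deg Δ) (hF : T.IsFlow K θ)
    (hL : T.IsLoop (colF ω) (s n) (ℓ n) (H n ω)) (k m : ℕ) (i : ℤ) (h : (k : ℤ) + i = m) :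
    T.act (wz (sam T θ s ℓ H n ω k) i) ((T.nx (colF ω))^[k] (s n))
      = (T.nx (colF ω))^[m] (s n) := by
  obtain ⟨hl0, hst, hper, hinj, -⟩ := hL
  have h1 := (hTR Δ K D V T θ
    (T.smp (colF ω) (fun m => T.hull (H n ω : Set V) m) (s n) (ℓ n) k)
    (sam T θ s ℓ H n ω k) ⟨hP, hD, hF, rfl⟩ (hst.iterate_nx k)).1 i
  have h2 := st_window hst k m i h
  exact h1.trans h2

theorem hgood (hTR : TypRepStmt) : HGoodStmt := by
  intro D V T Δ K θ s ℓ Λ A' H 𝒰 μ hP hD hF hS hU hUt hμ hL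
  have e1 : ∀ᵐ X ∂μ, ¬ ¬ (X .col 1 = true ∧ X .col A = false) := by
    refine null_window hS.ne hS.lim hU hUt hμ hL _
      (((LC.bit .col 1).map (fun x => x = true)).and ((LC.bit .col A).map (fun x => x = false))).not
      0 0 ?_
    intro n ω hω k _ _
    rw [not_not]
    have h := (hS.loop n ω hω).2.1.iterate_nx k
    constructor
    · exact h.1
    · have h2 := h.2
      change colF ω (T.lf (T.act A _)) = false
      rw [T.act_A, T.lf_al]
      exact h2
  have e2 : ∀ᵐ X ∂μ, ∀ i j : ℤ, ¬ (i ≠ j ∧ X .eq ((wz X i)⁻¹ * wz X j) = true) := by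
    rw [ae_all_iff]
    intro i
    rw [ae_all_iff]
    intro j
    refine null_window hS.ne hS.lim hU hUt hμ hL _
      ((LC.const (i ≠ j)).and
        (((lc_wz i).map2 (lc_wz j) (fun g h => g⁻¹ * h)).bitw_eq .eq true))
      (i.natAbs + j.natAbs) (i.natAbs + j.natAbs + 1) ?_
    rintro n ω hω k hk1 hk2 ⟨hne, h⟩
    have hloop := hS.loop n ω hω
    obtain ⟨mi, hmi⟩ : ∃ mi : ℕ, (k : ℤ) + i = mi := ⟨((k : ℤ) + i).toNat, by omega⟩
    obtain ⟨mj, hmj⟩ : ∃ mj : ℕ, (k : ℤ) + j = mj := ⟨((k : ℤ) + j).toNat, by omega⟩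
    have h1 := sam_word hTR hP hD hF hloop k mi i hmi
    have h2 := sam_word hTR hP hD hF hloop k mj j hmj
    have h3 := (enc_eq' T θ (T.smp (colF ω) (fun m => T.hull (H n ω : Set V) m) (s n) (ℓ n) k)
      _ _).1 h
    have h4 : (T.nx (colF ω))^[mi] (s n) = (T.nx (colF ω))^[mj] (s n) :=
      h1.symm.trans (h3.trans h2)
    rcases loop_eq hloop (by omega) (by omega) h4 with h5 | h5 | h5
    · exact hne (by omega)
    · omega
    · omega
  have e3 : ∀ᵐ X ∂μ, ∀ i : ℤ, ¬ ¬ (X .past (wz X i) = true ↔ i ≤ 0) := by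
    rw [ae_all_iff]
    intro i
    refine null_window hS.ne hS.lim hU hUt hμ hL _
      (((lc_wz i).bitw .past).map (fun b => ¬ (b = true ↔ i ≤ 0)))
      i.natAbs (i.natAbs + 1) ?_
    intro n ω hω k hk1 hk2
    rw [not_not]
    have hloop := hS.loop n ω hω
    obtain ⟨mi, hmi⟩ : ∃ mi : ℕ, (k : ℤ) + i = mi := ⟨((k : ℤ) + i).toNat, by omega⟩
    have h1 := sam_word hTR hP hD hF hloop k mi i hmi
    have h3 := (enc_past T θ (T.smp (colF ω) (fun m => T.hull (H n ω : Set V) m) (s n) (ℓ n) k)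
      (wz (sam T θ s ℓ H n ω k) i))
    refine h3.trans ?_
    change T.act (wz (sam T θ s ℓ H n ω k) i) ((T.nx (colF ω))^[k] (s n)) ∈
      {d | ∃ j ≤ k, (T.nx (colF ω))^[j] (s n) = d} ↔ _
    rw [h1]
    constructor
    · rintro ⟨j, hj, hj2⟩
      rcases loop_eq hloop (by omega) (by omega) hj2 with h5 | h5 | h5
      · omega
      · omega
      · omega
    · intro hi
      exact ⟨mi, by omega, rfl⟩
  have e4 : ∀ᵐ X ∂μ, ∀ i : ℤ, ¬ ¬ (X .fut (wz X i) = true ↔ 0 ≤ i) := by
    rw [ae_all_iff]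
    intro i
    refine null_window hS.ne hS.lim hU hUt hμ hL _
      (((lc_wz i).bitw .fut).map (fun b => ¬ (b = true ↔ 0 ≤ i)))
      (i.natAbs + 1) (i.natAbs + 1) ?_
    intro n ω hω k hk1 hk2
    rw [not_not]
    have hloop := hS.loop n ω hω
    obtain ⟨mi, hmi⟩ : ∃ mi : ℕ, (k : ℤ) + i = mi := ⟨((k : ℤ) + i).toNat, by omega⟩
    have h1 := sam_word hTR hP hD hF hloop k mi i hmi
    have h3 := (enc_fut T θ (T.smp (colF ω) (fun m => T.hull (H n ω : Set V) m) (s n) (ℓ n) k)
      (wz (sam T θ s ℓ H n ω k) i))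
    refine h3.trans ?_
    change T.act (wz (sam T θ s ℓ H n ω k) i) ((T.nx (colF ω))^[k] (s n)) ∈
      {d | ∃ j, k ≤ j ∧ j ≤ ℓ n ∧ (T.nx (colF ω))^[j] (s n) = d} ↔ _
    rw [h1]
    constructor
    · rintro ⟨j, hj, hj1, hj2⟩
      rcases loop_eq hloop (by omega) (by omega) hj2 with h5 | h5 | h5
      · omega
      · omega
      · omega
    · intro hi
      exact ⟨mi, by omega, by omega, rfl⟩
  have e5 : ∀ᵐ X ∂μ, ∀ g : Gam, ¬ (X .past g = true ∧
      ¬ (X .col g = true ∧ X .col (A * g) = false)) := by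
    rw [ae_all_iff]
    intro g
    refine null_window hS.ne hS.lim hU hUt hμ hL _
      (((LC.bit .past g).map (fun x => x = true)).and
      (((LC.bit .col g).map (fun x => x = true)).and
        ((LC.bit .col (A * g)).map (fun x => x = false))).not) 0 0 ?_
    rintro n ω hω k _ _ ⟨h1, h2⟩
    apply h2
    have h3 := (enc_past T θ (T.smp (colF ω) (fun m => T.hull (H n ω : Set V) m) (s n) (ℓ n) k)
      g).1 h1
    obtain ⟨j, hj, hj2⟩ := h3
    have h := (hS.loop n ω hω).2.1.iterate_nx j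
    rw [hj2] at h
    constructor
    · exact h.1
    · exact (enc_col_A T θ (T.smp (colF ω) (fun m => T.hull (H n ω : Set V) m) (s n) (ℓ n) k)
        g).trans h.2
  have e6 : ∀ᵐ X ∂μ, ∀ g : Gam, ¬ (X .fut g = true ∧
      ¬ (X .col g = true ∧ X .col (A * g) = false)) := by
    rw [ae_all_iff]
    intro g
    refine null_window hS.ne hS.lim hU hUt hμ hL _
      (((LC.bit .fut g).map (fun x => x = true)).and
      (((LC.bit .col g).map (fun x => x = true)).and
        ((LC.bit .col (A * g)).map (fun x => x = false))).not) 0 0 ?_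
    rintro n ω hω k _ _ ⟨h1, h2⟩
    apply h2
    have h3 := (enc_fut T θ (T.smp (colF ω) (fun m => T.hull (H n ω : Set V) m) (s n) (ℓ n) k)
      g).1 h1
    obtain ⟨j, hj, hj1, hj2⟩ := h3
    have h := (hS.loop n ω hω).2.1.iterate_nx j
    rw [hj2] at h
    constructor
    · exact h.1
    · exact (enc_col_A T θ (T.smp (colF ω) (fun m => T.hull (H n ω : Set V) m) (s n) (ℓ n) k)
        g).trans h.2
  filter_upwards [e1, e2, e3, e4, e5, e6] with X f1 f2 f3 f4 f5 f6
  intro D' V' T' θ' E hR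
  simp only [not_not] at f1 f3 f4
  have hX := hR.eq
  have hstate : T'.State E.c E.r := by
    constructor
    · have h := f1.1
      rw [hX, enc_col, T'.act_one_apply] at h
      exact h
    · have h := f1.2
      rw [hX, enc_col, T'.act_A, T'.lf_al] at h
      exact h
  have hw := (hTR Δ K D' V' T' θ' E X hR hstate).1
  refine ⟨hstate, ?_, ?_, ?_, ?_, ?_⟩
  · intro i j hij
    by_contra hne
    apply f2 i j
    refine ⟨hne, ?_⟩
    have h := (enc_eq' T' θ' E (wz X i) (wz X j)).2 (by rw [hw, hw]; exact hij)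
    rw [← hX] at h
    exact h
  · intro i
    rw [← f3 i]
    have h := enc_past T' θ' E (wz X i)
    rw [hw, ← hX] at h
    exact h.symm
  · intro i
    rw [← f4 i]
    have h := enc_fut T' θ' E (wz X i)
    rw [hw, ← hX] at h
    exact h.symm
  · intro d hd
    obtain ⟨g, rfl⟩ := T'.act_conn E.r d
    have h := f5 g
    have h1 := (enc_past T' θ' E g).2 hd
    rw [← hX] at h1
    have h2 := not_and_not_right.1 h h1
    have h3 := h2.1
    have h4 := h2.2
    rw [hX] at h3 h4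
    rw [enc_col] at h3
    rw [enc_col_A] at h4
    exact ⟨h3, h4⟩
  · intro d hd
    obtain ⟨g, rfl⟩ := T'.act_conn E.r d
    have h := f6 g
    have h1 := (enc_fut T' θ' E g).2 hd
    rw [← hX] at h1
    have h2 := not_and_not_right.1 h h1
    have h3 := h2.1
    have h4 := h2.2
    rw [hX] at h3 h4
    rw [enc_col] at h3
    rw [enc_col_A] at h4
    exact ⟨h3, h4⟩

end Pool.Agent.BS.H26
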