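import Pool.Agent.Helper26_BS.HGood

/-! # BS squad, module HOLD -/

set_option autoImplicit false

namespace Pool.Agent.BS.H26

open Function Filter MeasureTheory Topology

theorem act_L_pow {D V : Type} (T : TMap D V) (n : ℕ) (d : D) : T.act (L ^ n) d = (T.lam ^ n) d := by
  rw [map_pow, T.act_L]

theorem hold (hFO : FinOldStmt) (hTR : TypRepStmt) : HOldStmt := by
  intro D V T Δ K θ s ℓ Λ A' H 𝒰 μ hP hD hF hS hU hUt hμ hL
  have hg := hgood hTR D V T Δ K θ s ℓ Λ A' H 𝒰 μ hP hD hF hS hU hUt hμ hL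
  have e1 : ∀ᵐ X ∂μ, ∀ (g : Gam) (m n : ℕ), ¬ (X .past g = true ∧
      X .eq ((A * g)⁻¹ * (L ^ n * A)) = true ∧
      (∀ j ≤ Δ * (m + 1), X .eq (g⁻¹ * wz X (-(j : ℤ))) = false) ∧ X (.beta m) A = false) := by
    rw [ae_all_iff]
    intro g
    rw [ae_all_iff]
    intro m
    rw [ae_all_iff]
    intro n'
    refine null_window hS.ne hS.lim hU hUt hμ hL _
      (((LC.bit .past g).map (fun x => x = true)).and
      (((LC.bit .eq _).map (fun x => x = true)).and
      ((LC.all_le (fun j => ((lc_wz (-(j : ℤ))).map (fun h => g⁻¹ * h)).bitw_eq .eq false)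
        (Δ * (m + 1))).and
        ((LC.bit (.beta m) A).map (fun x => x = false))))) (Δ * (m + 1)) (Δ * (m + 1)) ?_
    rintro n ω hω k hk1 hk2 ⟨h1, h2, h3, h4⟩
    have hloop := hS.loop n ω hω
    obtain ⟨i, hi, hi2⟩ := (enc_past T θ
      (T.smp (colF ω) (fun m => T.hull (H n ω : Set V) m) (s n) (ℓ n) k) g).1 h1
    -- the dart `i` is old
    have hiold : i + Δ * (m + 1) ≤ k := by
      by_contra hc
      push Not at hc
      have h5 := h3 (k - i) (by omega)
      have h6 := (enc_eq_f' T θ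
        (T.smp (colF ω) (fun m => T.hull (H n ω : Set V) m) (s n) (ℓ n) k) _ _).1 h5
      apply h6
      have h7 := sam_word hTR hP hD hF hloop k i (-((k - i : ℕ) : ℤ)) (by
        have : i ≤ k := hi
        omega)
      exact hi2.symm.trans h7.symm
    have hrt : T.rt ((T.nx (colF ω))^[i] (s n)) = T.rt ((T.nx (colF ω))^[k] (s n)) := by
      have h6 := (enc_eq' T θ
        (T.smp (colF ω) (fun m => T.hull (H n ω : Set V) m) (s n) (ℓ n) k) _ _).1 h2
      have h7 := congrArg T.lf h6
      rw [T.act_A_mul, T.lf_al, T.act_mul_apply, act_L_pow, T.act_A] at h7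
      have h8 : ∀ (n : ℕ) (d : D), T.lf ((T.lam ^ n) d) = T.lf d := by
        intro n
        induction n with
        | zero => intro d; rfl
        | succ n ih => intro d; rw [pow_succ', Equiv.Perm.mul_apply, T.lf_lam, ih]
      rw [h8, T.lf_al] at h7
      have h9 : T.act g ((T.nx (colF ω))^[k] (s n)) = (T.nx (colF ω))^[i] (s n) := hi2.symm
      change T.rt (T.act g ((T.nx (colF ω))^[k] (s n))) = T.rt ((T.nx (colF ω))^[k] (s n)) at h7
      rw [h9] at h7
      exact h7
    have h5 := hFO D V T Δ K θ (colF ω) (s n) (ℓ n) (H n ω) m i k hP hD hF hloop hrt hiold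
      (by omega)
    have h6 : sam T θ s ℓ H n ω k (.beta m) A = true := by
      refine (enc_beta T θ
        (T.smp (colF ω) (fun m => T.hull (H n ω : Set V) m) (s n) (ℓ n) k) m A).2 ?_
      rw [T.act_A, T.lf_al]
      exact h5
    rw [h6] at h4
    exact absurd h4 (by decide)
  filter_upwards [hg, e1] with X f0 f1
  intro D' V' T' θ' E hR m e he hrt hj
  have hG := f0 D' V' T' θ' E hR
  have hX := hR.eq
  have hw := (hTR Δ K D' V' T' θ' E X hR hG.state).1
  obtain ⟨g, rfl⟩ := T'.act_conn E.r e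
  obtain ⟨n, hn⟩ := T'.cyc (T'.al E.r) (T'.al (T'.act g E.r)) (by rw [T'.lf_al, T'.lf_al]; exact hrt.symm)
  by_contra hc
  apply f1 g m n
  refine ⟨?_, ?_, ?_, ?_⟩
  · have h := (enc_past T' θ' E g).2 he
    rw [← hX] at h
    exact h
  · have h := (enc_eq' T' θ' E (A * g) (L ^ n * A)).2 (by
      rw [T'.act_A_mul, T'.act_mul_apply, act_L_pow, T'.act_A, hn])
    rw [← hX] at h
    exact h
  · intro j hj2
    have h := (enc_eq_f' T' θ' E g (wz X (-(j : ℤ)))).2 (by
      rw [hw]
      exact (hj j hj2).symm)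
    rw [← hX] at h
    exact h
  · by_contra h
    rw [Bool.not_eq_false, hX, enc_beta, T'.act_A, T'.lf_al] at h
    exact hc h

end Pool.Agent.BS.H26
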