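import Pool.Agent.Helper26_BS.HTool

/-! # BS squad, module HSHIFT -/

set_option autoImplicit false

namespace Pool.Agent.BS.H26

open Function Filter MeasureTheory Topology

theorem cont_integrable {μ : Measure Cod} (hμ : IsProbabilityMeasure μ) {f : Cod → ℝ}
    (hf : Continuous f) : Integrable f μ := by
  obtain ⟨C, hC⟩ := (isCompact_range hf).isBounded.exists_norm_le
  refine Integrable.of_bound hf.stronglyMeasurable.aestronglyMeasurable C ?_
  exact Filter.Eventually.of_forall fun X => hC _ ⟨X, rfl⟩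

/-- if the sums of two continuous functions along all samples differ by a bounded amount, the
integrals agree -/
theorem integral_eq_of_close {D V : Type} {T : TMap D V} {θ : D → ℤ} {s : ℕ → D} {ℓ : ℕ → ℕ}
    {A : ℕ → Finset (Finset V)} {H : ℕ → Finset V → Finset V} {𝒰 : Filter ℕ} {μ : Measure Cod}
    (h1 : ∀ n, (A n).Nonempty) (h2 : Tendsto ℓ atTop atTop) (h3 : 𝒰.NeBot) (h4 : 𝒰 ≤ atTop)
    (h5 : IsProbabilityMeasure μ) (h6 : IsLim T θ s ℓ A H 𝒰 μ) (f g : Cod → ℝ) (hf : Continuous f)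
    (hg : Continuous g) (C : ℝ)
    (h : ∀ᶠ n in atTop, ∀ ω ∈ A n, |∑ k ∈ Finset.range (ℓ n + 1),
      (f (sam T θ s ℓ H n ω k) - g (sam T θ s ℓ H n ω k))| ≤ C) :
    ∫ X, f X ∂μ = ∫ X, g X ∂μ := by
  have k1 := (htool D V T θ s ℓ A H 𝒰 μ h1 h2 h3 h4 h5 h6).1 (fun X => f X - g X) 0 C
    (hf.sub hg) (by
      filter_upwards [h] with n hn ω hω
      have := (abs_le.1 (hn ω hω)).1
      linarith)
  have k2 := (htool D V T θ s ℓ A H 𝒰 μ h1 h2 h3 h4 h5 h6).1 (fun X => g X - f X) 0 C
    (hg.sub hf) (by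
      filter_upwards [h] with n hn ω hω
      have := (abs_le.1 (hn ω hω)).2
      have e : ∑ k ∈ Finset.range (ℓ n + 1),
          (g (sam T θ s ℓ H n ω k) - f (sam T θ s ℓ H n ω k))
          = - ∑ k ∈ Finset.range (ℓ n + 1),
          (f (sam T θ s ℓ H n ω k) - g (sam T θ s ℓ H n ω k)) := by
        rw [← Finset.sum_neg_distrib]
        exact Finset.sum_congr rfl fun k _ => by ring
      rw [e]
      linarith)
  have hfi := cont_integrable h5 hf
  have hgi := cont_integrable h5 hg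
  rw [integral_sub hfi hgi] at k1
  rw [integral_sub hgi hfi] at k2
  linarith

/-- two probability measures on the code space with the same integrals of continuous functions -/
theorem measure_ext_cont {μ ν : Measure Cod} (hμ : IsProbabilityMeasure μ)
    (hν : IsProbabilityMeasure ν) (h : ∀ f : Cod → ℝ, Continuous f → ∫ X, f X ∂μ = ∫ X, f X ∂ν) :
    μ = ν := by
  refine ext_of_forall_integral_eq_of_IsFiniteMeasure ?_
  intro f
  exact h f f.continuous

/-- the shift of the sampled code -/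
theorem sh_sam (hC : CodeStmt) {D V : Type} {T : TMap D V} {θ : D → ℤ} {s : ℕ → D} {ℓ : ℕ → ℕ}
    {H : ℕ → Finset V → Finset V} {n : ℕ} {ω : Finset V}
    (hL : T.IsLoop (colF ω) (s n) (ℓ n) (H n ω)) {k : ℕ} (hk0 : 0 < k) (hk : k < ℓ n) :
    Sh (sam T θ s ℓ H n ω k) = sam T θ s ℓ H n ω (k + 1) := by
  obtain ⟨hl0, hst, hper, hinj, -⟩ := hL
  unfold sam
  rw [(hC D V T θ _).2.1 (hst.iterate_nx k)]
  congr 1
  simp only [TMap.shE, TMap.smp]
  have e1 : T.nx (colF ω) ((T.nx (colF ω))^[k] (s n)) = (T.nx (colF ω))^[k + 1] (s n) :=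
    (Function.iterate_succ_apply' _ _ _).symm
  rw [e1]
  congr 1
  · ext d
    simp only [Set.mem_insert_iff, Set.mem_ofPred_eq]
    constructor
    · rintro (rfl | ⟨j, hj, rfl⟩)
      · exact ⟨k + 1, le_refl _, rfl⟩
      · exact ⟨j, by omega, rfl⟩
    · rintro ⟨j, hj, rfl⟩
      rcases Nat.lt_or_ge k j with h | h
      · have : j = k + 1 := by omega
        subst this
        exact Or.inl rfl
      · exact Or.inr ⟨j, h, rfl⟩
  · ext d
    simp only [Set.mem_sdiff, Set.mem_singleton_iff, Set.mem_ofPred_eq]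
    constructor
    · rintro ⟨⟨j, hj1, hj2, rfl⟩, hne⟩
      have : k ≠ j := by
        rintro rfl
        exact hne rfl
      exact ⟨j, by omega, hj2, rfl⟩
    · rintro ⟨j, hj1, hj2, rfl⟩
      refine ⟨⟨j, by omega, hj2, rfl⟩, ?_⟩
      intro he
      rcases Nat.lt_or_ge j (ℓ n) with h | h
      · exact hinj k j (by omega) h he.symm
      · have : j = ℓ n := by omega
        rw [this, hper] at he
        exact hinj 0 k hk0 hk (by rw [Function.iterate_zero_apply]; exact he)

theorem hshift (hCt : ContStmt) (hC : CodeStmt) : HShiftStmt := by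
  intro D V T Δ K θ s ℓ Λ A H 𝒰 μ hP hD hF hS hU hUt hμ hL
  have hSh : Continuous Sh := hCt.2.1
  refine ⟨hSh.measurable, ?_⟩
  have hμ' : IsProbabilityMeasure (Measure.map Sh μ) :=
    Measure.isProbabilityMeasure_map hSh.measurable.aemeasurable
  refine measure_ext_cont hμ' hμ ?_
  intro f hf
  rw [integral_map hSh.measurable.aemeasurable hf.stronglyMeasurable.aestronglyMeasurable]
  obtain ⟨C, hCb⟩ := (isCompact_range hf).isBounded.exists_norm_le
  have hb : ∀ X, |f X| ≤ C := fun X => hCb _ ⟨X, rfl⟩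
  refine integral_eq_of_close hS.ne hS.lim hU hUt hμ hL (fun X => f (Sh X)) f (hf.comp hSh) hf
    (6 * C) ?_
  filter_upwards [hS.lim.eventually_ge_atTop 1] with n hn ω hω
  have hloop := hS.loop n ω hω
  obtain ⟨m, hm⟩ : ∃ m, ℓ n = m + 1 := ⟨ℓ n - 1, by omega⟩
  set x : ℕ → Cod := fun k => sam T θ s ℓ H n ω k with hx
  have hsh : ∀ k, k < m → Sh (x (k + 1)) = x (k + 2) := by
    intro k hk
    exact sh_sam hC hloop (by omega) (by omega)
  have e : ∑ k ∈ Finset.range (ℓ n + 1), (f (Sh (x k)) - f (x k))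
      = (f (Sh (x 0)) - f (x 0)) + (f (Sh (x (m + 1))) - f (x (m + 1)))
        + (f (x (m + 1)) - f (x 1)) := by
    rw [hm, Finset.sum_range_succ, Finset.sum_range_succ']
    have e2 : ∑ k ∈ Finset.range m, (f (Sh (x (k + 1))) - f (x (k + 1)))
        = f (x (m + 1)) - f (x 1) := by
      have e3 : ∑ k ∈ Finset.range m, (f (Sh (x (k + 1))) - f (x (k + 1)))
          = ∑ k ∈ Finset.range m, (f (x (k + 1 + 1)) - f (x (k + 1))) :=
        Finset.sum_congr rfl fun k hk => by rw [hsh k (Finset.mem_range.1 hk)]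
      rw [e3, Finset.sum_range_sub (fun k => f (x (k + 1)))]
    rw [e2]
    ring
  change |∑ k ∈ Finset.range (ℓ n + 1), (f (Sh (x k)) - f (x k))| ≤ 6 * C
  rw [e]
  have b1 := abs_le.1 (hb (Sh (x 0)))
  have b2 := abs_le.1 (hb (x 0))
  have b3 := abs_le.1 (hb (Sh (x (m + 1))))
  have b4 := abs_le.1 (hb (x (m + 1)))
  have b5 := abs_le.1 (hb (x 1))
  rw [abs_le]
  constructor <;> linarith

end Pool.Agent.BS.H26
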