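import Pool.Agent.Helper47_BS.Stmts

/-! # BS squad, module HTOOL -/

set_option autoImplicit false

namespace Pool.Agent.BS.H26

open Function Filter MeasureTheory Topology

open Classical in
theorem continuous_indicator_clopen (U : Set Cod) (hU : IsClopen U) (c : ℝ) :
    Continuous (fun X : Cod => if X ∈ U then c else 0) := by
  have h : (fun X : Cod => if X ∈ U then c else (0 : ℝ)) = U.indicator (fun _ => c) := by
    funext X
    simp [Set.indicator]
  rw [h]
  exact (continuous_const).indicator (by simp [hU.frontier_eq])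

theorem htool : HToolStmt := by
  intro D V T θ s ℓ A H 𝒰 μ hA hl hU hUt hμ hL
  have key : ∀ (f : Cod → ℝ) (a C : ℝ), Continuous f →
      (∀ᶠ n in atTop, ∀ ω ∈ A n,
        a * (ℓ n + 1) - C ≤ ∑ k ∈ Finset.range (ℓ n + 1), f (sam T θ s ℓ H n ω k)) →
      a ≤ ∫ X, f X ∂μ := by
    intro f a C hf h
    have h1 := hL f hf
    have h2 : Tendsto (fun n => a - C / ((ℓ n : ℝ) + 1)) 𝒰 (𝓝 a) := by
      have h3 : Tendsto (fun n => C / ((ℓ n : ℝ) + 1)) atTop (𝓝 0) := by
        refine Tendsto.const_div_atTop ?_ C
        exact tendsto_atTop_add_const_right _ _ (tendsto_natCast_atTop_atTop.comp hl)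
      have := (tendsto_const_nhds (x := a)).sub (h3.mono_left hUt)
      simpa using this
    refine le_of_tendsto_of_tendsto h2 h1 ?_
    filter_upwards [hUt h] with n hn
    have hAc : 0 < ((A n).card : ℝ) := by exact_mod_cast (hA n).card_pos
    have hlp : 0 < (ℓ n : ℝ) + 1 := by positivity
    have h5 : ((A n).card : ℝ) * (a * (ℓ n + 1) - C)
        ≤ ∑ ω ∈ A n, ∑ k ∈ Finset.range (ℓ n + 1), f (sam T θ s ℓ H n ω k) := by
      have := Finset.card_nsmul_le_sum (A n) _ _ (fun ω hω => hn ω hω)
      rwa [nsmul_eq_mul] at this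
    rw [le_div_iff₀ (by positivity)]
    refine le_trans (le_of_eq ?_) h5
    field_simp
  refine ⟨key, ?_⟩
  intro U C hUc h
  classical
  have h1 := key (fun X => if X ∈ U then (-1) else 0) 0 C (continuous_indicator_clopen U hUc (-1))
    (by
      filter_upwards [h] with n hn ω hω
      have h2 := hn ω hω ((Finset.range (ℓ n + 1)).filter (fun k => sam T θ s ℓ H n ω k ∈ U))
        (Finset.filter_subset _ _) (fun k hk => (Finset.mem_filter.1 hk).2)
      rw [← Finset.sum_filter]
      simp only [Finset.sum_const, nsmul_eq_mul]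
      have h3 : ((((Finset.range (ℓ n + 1)).filter
        (fun k => sam T θ s ℓ H n ω k ∈ U)).card : ℕ) : ℝ) ≤ C := by exact_mod_cast h2
      linarith)
  have h4 : ∫ X, (if X ∈ U then (-1 : ℝ) else 0) ∂μ = - μ.real U := by
    have e : (fun X : Cod => if X ∈ U then (-1 : ℝ) else 0) = U.indicator (fun _ => (-1 : ℝ)) := by
      funext X
      simp [Set.indicator]
    rw [e, integral_indicator hUc.isOpen.measurableSet]
    simp
  rw [h4] at h1
  have h5 : μ.real U = 0 := le_antisymm (by linarith) measureReal_nonneg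
  rw [measureReal_def, ENNReal.toReal_eq_zero_iff] at h5
  rcases h5 with h5 | h5
  · exact h5
  · exact absurd h5 (measure_ne_top μ U)

end Pool.Agent.BS.H26
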