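import Pool.Agent.Helper47_BS.Stmts

/-! # BS squad, module LIM: compactness of probability measures on the code space -/

set_option autoImplicit false

namespace Pool.Agent.BS.H26

open Function Filter MeasureTheory Topology

/-- empirical measure -/
noncomputable def emp {α : Type} (I : Finset α) (x : α → Cod) : Measure Cod :=
  (I.card : ENNReal)⁻¹ • ∑ i ∈ I, Measure.dirac (x i)

theorem emp_prob {α : Type} (I : Finset α) (hI : I.Nonempty) (x : α → Cod) :
    IsProbabilityMeasure (emp I x) := by
  constructor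
  unfold emp
  rw [Measure.smul_apply, Measure.finsetSum_apply]
  simp only [measure_univ, Finset.sum_const, smul_eq_mul, nsmul_eq_mul, mul_one]
  refine ENNReal.inv_mul_cancel ?_ ?_
  · simpa using hI.ne_empty
  · exact ENNReal.natCast_ne_top _

theorem emp_integral {α : Type} (I : Finset α) (x : α → Cod) (f : Cod → ℝ) (hf : Continuous f) :
    ∫ X, f X ∂(emp I x) = (∑ i ∈ I, f (x i)) / I.card := by
  unfold emp
  rw [integral_smul_measure, integral_finsetSum_measure]
  · have h : ∀ i ∈ I, ∫ X, f X ∂(Measure.dirac (x i)) = f (x i) := fun i _ =>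
      integral_dirac' f (x i) hf.stronglyMeasurable
    rw [Finset.sum_congr rfl h, ENNReal.toReal_inv, ENNReal.toReal_natCast, smul_eq_mul,
      div_eq_inv_mul]
  · intro i _
    obtain ⟨C, hC⟩ := (isCompact_range hf).isBounded.exists_norm_le
    refine Integrable.of_bound hf.stronglyMeasurable.aestronglyMeasurable C ?_
    exact Filter.Eventually.of_forall fun X => hC _ ⟨X, rfl⟩

theorem lim : LimStmt := by
  intro α I x hI
  let P : ℕ → ProbabilityMeasure Cod := fun n => ⟨emp (I n) (x n), emp_prob (I n) (hI n) (x n)⟩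
  let 𝒰 : Ultrafilter ℕ := Ultrafilter.of atTop
  have hU : (𝒰 : Filter ℕ) ≤ atTop := Ultrafilter.of_le atTop
  obtain ⟨μ, -, hμ⟩ := isCompact_univ.ultrafilter_le_nhds (𝒰.map P)
    (by simp)
  have hT : Tendsto P (𝒰 : Filter ℕ) (𝓝 μ) := by
    rw [Ultrafilter.coe_map] at hμ
    exact hμ
  refine ⟨(μ : Measure Cod), (𝒰 : Filter ℕ), μ.prop, 𝒰.neBot, hU, ?_⟩
  intro f hf
  have h := (ProbabilityMeasure.tendsto_iff_forall_integral_tendsto.1 hT)
    (BoundedContinuousFunction.mkOfCompact ⟨f, hf⟩)
  have e : ∀ n, ∫ ω, (BoundedContinuousFunction.mkOfCompact ⟨f, hf⟩) ω ∂(P n : Measure Cod)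
      = (∑ i ∈ I n, f (x n i)) / (I n).card := fun n => emp_integral (I n) (x n) f hf
  simp only [e] at h
  exact h

end Pool.Agent.BS.H26
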