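import Pool.Agent.Helper26_BS.HShift

/-! # BS squad, module MIRSEQ -/

set_option autoImplicit false

namespace Pool.Agent.BS.H26

open Function Filter MeasureTheory Topology

theorem pv_iterate {D V : Type} {T : TMap D V} {c : V → Bool} {s : D} {ℓ : ℕ} (hst : T.State c s)
    (hper : (T.nx c)^[ℓ] s = s) (j : ℕ) (hj : j ≤ ℓ) : (T.pv c)^[j] s = (T.nx c)^[ℓ - j] s := by
  have h1 := hst.st_st (ℓ : ℤ) (-(j : ℤ))
  rw [TMap.st_natCast, hper, TMap.st_neg_natCast] at h1
  rw [h1]
  have e : (ℓ : ℤ) + -(j : ℤ) = ((ℓ - j : ℕ) : ℤ) := by omega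
  rw [e, TMap.st_natCast]

theorem smp_mirror {D V : Type} {T : TMap D V} {c : V → Bool} {B : ℕ → Set V} {s : D} {ℓ : ℕ}
    (hst : T.State c s) (hper : (T.nx c)^[ℓ] s = s) (k : ℕ) (hk : k ≤ ℓ) :
    (T.smp c B s ℓ k).mir = T.mirror.smp c B s ℓ (ℓ - k) := by
  simp only [TMap.smp, Env.mir, TMap.mirror_nx]
  have e1 : (T.pv c)^[ℓ - k] s = (T.nx c)^[k] s := by
    rw [pv_iterate hst hper _ (by omega)]
    congr 1
    omega
  rw [e1]
  congr 1
  · ext d
    constructor
    · rintro ⟨j, hj1, hj2, rfl⟩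
      refine ⟨ℓ - j, by omega, ?_⟩
      rw [pv_iterate hst hper _ (by omega)]
      congr 1
      omega
    · rintro ⟨j, hj1, rfl⟩
      refine ⟨ℓ - j, by omega, by omega, ?_⟩
      rw [pv_iterate hst hper _ (by omega)]
  · ext d
    constructor
    · rintro ⟨j, hj1, rfl⟩
      refine ⟨ℓ - j, by omega, by omega, ?_⟩
      rw [pv_iterate hst hper _ (by omega)]
      congr 1
      omega
    · rintro ⟨j, hj1, hj2, rfl⟩
      refine ⟨ℓ - j, by omega, ?_⟩
      rw [pv_iterate hst hper _ (by omega)]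

theorem mirseq (hLo : LoopStmt) (hC : CodeStmt) (hCt : ContStmt) : MirSeqStmt := by
  intro D V T Δ K θ s ℓ Λ A H 𝒰 μ hP hD hF hS hU hUt hμ hL
  constructor
  · refine ⟨hS.sub, hS.ne, ?_, ?_, hS.lim, hS.big⟩
    · intro n ω hω
      exact (hLo D V T Δ K θ _ _ _ _ hP hD hF (hS.loop n ω hω)).2.2.2.2
    · intro n d hd
      rw [TMap.mirror_ball] at hd
      exact hS.reach n d hd
  · intro f hf
    have hMi : Continuous Mi := hCt.1
    rw [integral_map hMi.measurable.aemeasurable hf.stronglyMeasurable.aestronglyMeasurable]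
    have h := hL (fun X => f (Mi X)) (hf.comp hMi)
    refine h.congr ?_
    intro n
    congr 1
    refine Finset.sum_congr rfl fun ω hω => ?_
    obtain ⟨hl0, hst, hper, hinj, -⟩ := hS.loop n ω hω
    rw [← Finset.sum_range_reflect]
    refine Finset.sum_congr rfl fun k hk => ?_
    have hk' : k ≤ ℓ n := by
      have := Finset.mem_range.1 hk
      omega
    congr 1
    unfold sam
    rw [(hC D V T θ _).1, smp_mirror hst hper _ (by omega)]
    have e : ℓ n - (ℓ n + 1 - 1 - k) = k := by omega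
    rw [e]
    rfl

end Pool.Agent.BS.H26
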