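import Pool.Agent.Helper26_BS.HTool
import Pool.Agent.Helper26_BS.HValid

/-! # BS squad: locally constant functions of codes, tools for null events -/

set_option autoImplicit false

namespace Pool.Agent.BS.H26

open Function Filter MeasureTheory Topology

/-- locally constant functions of codes -/
def LC {β : Type} (f : Cod → β) : Prop := ∀ X, ∀ᶠ Y in 𝓝 X, f Y = f X

theorem LC.const {β : Type} (b : β) : LC (fun _ : Cod => b) := fun _ => Eventually.of_forall fun _ => rfl

theorem LC.map {β γ : Type} {f : Cod → β} (hf : LC f) (φ : β → γ) : LC (fun X => φ (f X)) := by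
  intro X
  filter_upwards [hf X] with Y hY
  rw [hY]

theorem LC.map2 {β γ δ : Type} {f : Cod → β} {g : Cod → γ} (hf : LC f) (hg : LC g)
    (φ : β → γ → δ) : LC (fun X => φ (f X) (g X)) := by
  intro X
  filter_upwards [hf X, hg X] with Y h1 h2
  rw [h1, h2]

theorem LC.bit (k : Kd) (g : Gam) : LC (fun X : Cod => X k g) := by
  intro X
  exact (isClopen_bit k g (X k g)).isOpen.mem_nhds rfl

theorem LC.bitw {w : Cod → Gam} (hw : LC w) (k : Kd) : LC (fun X : Cod => X k (w X)) := by
  intro X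
  filter_upwards [hw X, LC.bit k (w X) X] with Y h1 h2
  rw [h1, h2]

theorem LC.clopen {p : Cod → Prop} (hp : LC p) : IsClopen {X | p X} := by
  constructor
  · rw [← isOpen_compl_iff, isOpen_iff_mem_nhds]
    intro X hX
    filter_upwards [hp X] with Y hY
    intro h
    apply hX
    change p X
    rw [← hY]
    exact h
  · rw [isOpen_iff_mem_nhds]
    intro X hX
    filter_upwards [hp X] with Y hY
    rw [hY]
    exact hX

theorem LC.and {p q : Cod → Prop} (hp : LC p) (hq : LC q) : LC (fun X => p X ∧ q X) :=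
  hp.map2 hq And

theorem LC.or {p q : Cod → Prop} (hp : LC p) (hq : LC q) : LC (fun X => p X ∨ q X) :=
  hp.map2 hq Or

theorem LC.not {p : Cod → Prop} (hp : LC p) : LC (fun X => ¬ p X) :=
  hp.map Not

theorem LC.all_le {p : ℕ → Cod → Prop} (hp : ∀ j, LC (p j)) (N : ℕ) :
    LC (fun X => ∀ j ≤ N, p j X) := by
  intro X
  have h : ∀ᶠ Y in 𝓝 X, ∀ j ∈ Set.Iic N, p j Y = p j X := by
    rw [eventually_all_finite (Set.finite_Iic N)]
    intro j _
    exact hp j X
  filter_upwards [h] with Y hY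
  apply propext
  refine forall₂_congr fun j hj => ?_
  rw [hY j hj]

theorem LC.ex_le {p : ℕ → Cod → Prop} (hp : ∀ j, LC (p j)) (N : ℕ) :
    LC (fun X => ∃ j ≤ N, p j X) := by
  have h := (LC.all_le (fun j => (hp j).not) N).not
  have e : (fun X => ¬ ∀ j ≤ N, ¬ p j X) = (fun X => ∃ j ≤ N, p j X) := by
    funext X
    apply propext
    push Not
    rfl
  rw [e] at h
  exact h

theorem LC.bitw_eq {w : Cod → Gam} (hw : LC w) (k : Kd) (b : Bool) : LC (fun X : Cod => X k (w X) = b) :=
  (hw.bitw k).map (fun x => x = b)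

theorem lc_wf (n : ℕ) : LC (fun X => wf X n) := by
  induction n with
  | zero => exact LC.const _
  | succ n ih =>
    have h1 : LC (fun X : Cod => X .col (A * L * wf X n)) := (ih.map (fun w => A * L * w)).bitw .col
    have h2 := h1.map2 ih (fun b w => (if b = true then A * L⁻¹ * A else L) * w)
    exact h2

theorem lc_wb (n : ℕ) : LC (fun X => wb X n) := by
  induction n with
  | zero => exact LC.const _
  | succ n ih =>
    have h1 : LC (fun X : Cod => X .col (A * L⁻¹ * wb X n)) :=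
      (ih.map (fun w => A * L⁻¹ * w)).bitw .col
    have h2 := h1.map2 ih (fun b w => (if b = true then A * L * A else L⁻¹) * w)
    exact h2

theorem lc_wz (i : ℤ) : LC (fun X => wz X i) := by
  cases i with
  | ofNat n => exact lc_wf n
  | negSucc n => exact lc_wb (n + 1)

/-! ### bits of a code -/

section Bits

variable {D V : Type} (T : TMap D V) (θ : D → ℤ) (E : Env D V)

theorem enc_col (g : Gam) : T.enc θ E .col g = E.c (T.lf (T.act g E.r)) := rfl

theorem enc_col_A (g : Gam) : T.enc θ E .col (A * g) = E.c (T.rt (T.act g E.r)) := by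
  rw [enc_col, T.act_A_mul, T.lf_al]

theorem enc_past (g : Gam) : T.enc θ E .past g = true ↔ T.act g E.r ∈ E.P := by
  simp only [TMap.enc, decide_eq_true_eq]

theorem enc_past_f (g : Gam) : T.enc θ E .past g = false ↔ T.act g E.r ∉ E.P := by
  simp only [TMap.enc, decide_eq_false_iff_not]

theorem enc_fut (g : Gam) : T.enc θ E .fut g = true ↔ T.act g E.r ∈ E.F := by
  simp only [TMap.enc, decide_eq_true_eq]

theorem enc_fut_f (g : Gam) : T.enc θ E .fut g = false ↔ T.act g E.r ∉ E.F := by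
  simp only [TMap.enc, decide_eq_false_iff_not]

theorem enc_eq (g : Gam) : T.enc θ E .eq g = true ↔ T.act g E.r = E.r := by
  simp only [TMap.enc, decide_eq_true_eq]

theorem enc_eq' (g h : Gam) : T.enc θ E .eq (g⁻¹ * h) = true ↔ T.act g E.r = T.act h E.r := by
  rw [enc_eq, T.act_mul_apply, T.act_inv_apply]
  exact eq_comm

theorem enc_eq_f' (g h : Gam) : T.enc θ E .eq (g⁻¹ * h) = false ↔ T.act g E.r ≠ T.act h E.r := by
  rw [Ne, ← enc_eq' T θ E g h, Bool.not_eq_true]

theorem enc_beta (m : ℕ) (g : Gam) : T.enc θ E (.beta m) g = true ↔ T.lf (T.act g E.r) ∈ E.B m := by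
  simp only [TMap.enc, decide_eq_true_eq]

end Bits

/-! ### null events -/

theorem null_window {D V : Type} {T : TMap D V} {θ : D → ℤ} {s : ℕ → D} {ℓ : ℕ → ℕ}
    {A : ℕ → Finset (Finset V)} {H : ℕ → Finset V → Finset V} {𝒰 : Filter ℕ} {μ : Measure Cod}
    (h1 : ∀ n, (A n).Nonempty) (h2 : Tendsto ℓ atTop atTop) (h3 : 𝒰.NeBot) (h4 : 𝒰 ≤ atTop)
    (h5 : IsProbabilityMeasure μ) (h6 : IsLim T θ s ℓ A H 𝒰 μ) (p : Cod → Prop) (hp : LC p)
    (a b : ℕ)
    (h : ∀ n, ∀ ω ∈ A n, ∀ k, a ≤ k → k + b ≤ ℓ n → ¬ p (sam T θ s ℓ H n ω k)) :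
    ∀ᵐ X ∂μ, ¬ p X := by
  rw [ae_iff]
  simp only [not_not]
  refine (htool D V T θ s ℓ A H 𝒰 μ h1 h2 h3 h4 h5 h6).2 {X | p X} (a + b) hp.clopen ?_
  refine Eventually.of_forall fun n ω hω F hF hFU => ?_
  have hsub : F ⊆ Finset.range a ∪ Finset.Ico (ℓ n + 1 - b) (ℓ n + 1) := by
    intro k hk
    rw [Finset.mem_union, Finset.mem_range, Finset.mem_Ico]
    by_contra hc
    push Not at hc
    have h7 := Finset.mem_range.1 (hF hk)
    refine h n ω hω k hc.1 ?_ (hFU k hk)
    by_contra h8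
    have := hc.2 (by omega)
    omega
  refine le_trans (Finset.card_le_card hsub) (le_trans (Finset.card_union_le _ _) ?_)
  rw [Finset.card_range, Nat.card_Ico]
  omega

/-- the interface seen from step `k` of the loop -/
theorem st_window {D V : Type} {T : TMap D V} {c : V → Bool} {s : D} (hst : T.State c s) (k m : ℕ)
    (i : ℤ) (h : (k : ℤ) + i = m) : T.st c ((T.nx c)^[k] s) i = (T.nx c)^[m] s := by
  have h1 := hst.st_st (k : ℤ) i
  rw [TMap.st_natCast] at h1
  rw [h1, h, TMap.st_natCast]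

/-- in a loop the darts `0, ..., ℓ - 1` are distinct, and dart `ℓ` is dart `0` -/
theorem loop_eq {D V : Type} {T : TMap D V} {c : V → Bool} {s : D} {ℓ : ℕ} {H : Finset V}
    (hL : T.IsLoop c s ℓ H) {i j : ℕ} (hi : i ≤ ℓ) (hj : j ≤ ℓ)
    (h : (T.nx c)^[i] s = (T.nx c)^[j] s) : i = j ∨ (i = 0 ∧ j = ℓ) ∨ (i = ℓ ∧ j = 0) := by
  obtain ⟨hl0, hst, hper, hinj, -⟩ := hL
  rcases Nat.lt_trichotomy i j with hij | hij | hij
  · rcases Nat.lt_or_ge j ℓ with h1 | h1
    · exact absurd h (hinj i j hij h1)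
    · have hjl : j = ℓ := le_antisymm hj h1
      subst hjl
      rw [hper] at h
      rcases Nat.eq_zero_or_pos i with h2 | h2
      · exact Or.inr (Or.inl ⟨h2, rfl⟩)
      · exact absurd h.symm (hinj 0 i h2 hij)
  · exact Or.inl hij
  · rcases Nat.lt_or_ge i ℓ with h1 | h1
    · exact absurd h.symm (hinj j i hij h1)
    · have hil : i = ℓ := le_antisymm hi h1
      subst hil
      rw [hper] at h
      rcases Nat.eq_zero_or_pos j with h2 | h2
      · exact Or.inr (Or.inr ⟨rfl, h2⟩)
      · exact absurd h (hinj 0 j h2 hij)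

end Pool.Agent.BS.H26
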